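import Mathlib

/-!
Combinatorial core for monochromatic convex polygons: points are elements of a type `α` with two
real coordinates `u`, `w`; `D u w a b c` is the orientation determinant.
-/

namespace Pool.Agent.Y379.MonoConvexCore

variable {α : Type*}

/-- orientation determinant of three points with coordinates `u`, `w` -/
def D (u w : α → ℝ) (a b c : α) : ℝ :=
  (u b - u a) * (w c - w a) - (w b - w a) * (u c - u a)

lemma D_pos_iff (u w : α → ℝ) {a v s : α} (hav : u a < u v) (hvs : u v < u s) :
    0 < D u w a v s ↔ (w v - w a) / (u v - u a) < (w s - w v) / (u s - u v) := by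
  have h1 : 0 < u v - u a := by linarith
  have h2 : 0 < u s - u v := by linarith
  rw [div_lt_div_iff₀ h1 h2]
  unfold D
  constructor
  · intro h; nlinarith
  · intro h; nlinarith

lemma D_neg_iff (u w : α → ℝ) {a v s : α} (hav : u a < u v) (hvs : u v < u s) :
    D u w a v s < 0 ↔ (w s - w v) / (u s - u v) < (w v - w a) / (u v - u a) := by
  have h1 : 0 < u v - u a := by linarith
  have h2 : 0 < u s - u v := by linarith
  rw [div_lt_div_iff₀ h2 h1]
  unfold D
  constructor
  · intro h; nlinarith
  · intro h; nlinarith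

/-- the state of the greedy procedure -/
structure State [DecidableEq α] (u w : α → ℝ) (χ : α → α → Bool) (L S : Finset α) : Prop where
  left : ∀ a ∈ L, ∀ s ∈ S, u a < u s
  col : ∀ a ∈ L, ∀ b ∈ L ∪ S, ∀ b' ∈ L ∪ S, u a < u b → u a < u b' → χ a b = χ a b'
  sgn : ∀ a ∈ L, ∀ b ∈ L, u a < u b → ∀ c ∈ L ∪ S, ∀ c' ∈ L ∪ S, u b < u c → u b < u c' →
    (0 < D u w a b c ↔ 0 < D u w a b c')

open Classical in
lemma step [DecidableEq α] (u w : α → ℝ) (χ : α → α → Bool) (m r : ℕ) (L S : Finset α)
    (hinj : Set.InjOn u (S : Set α))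
    (hst : State u w χ L S) (hL : L.card + 1 ≤ m) (hS : (4 * m) ^ (r + 1) ≤ S.card) :
    ∃ v ∈ S, ∃ S' ⊆ S, v ∉ S' ∧ v ∉ L ∧ State u w χ (insert v L) S' ∧ (4 * m) ^ r ≤ S'.card := by
  have hm : 1 ≤ m := by omega
  have hSpos : 0 < S.card := lt_of_lt_of_le (by positivity) hS
  have hSne : S.Nonempty := Finset.card_pos.mp hSpos
  obtain ⟨v, hvS, hvmin⟩ := Finset.exists_min_image S u hSne
  have hvL : v ∉ L := fun h => lt_irrefl _ (hst.left v h v hvS)
  have hlt : ∀ s ∈ S, s ≠ v → u v < u s := by
    intro s hs hne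
    rcases lt_or_eq_of_le (hvmin s hs) with h | h
    · exact h
    · exact absurd (hinj (by exact_mod_cast hs) (by exact_mod_cast hvS) h.symm) hne
  -- count function
  let cnt : α → ℕ := fun s => (L.filter (fun a => 0 < D u w a v s)).card
  let f : α → Bool × ℕ := fun s => (χ v s, cnt s)
  let T : Finset (Bool × ℕ) := Finset.univ ×ˢ Finset.range m
  have hmaps : ∀ s ∈ S.erase v, f s ∈ T := by
    intro s _
    simp only [T, f, Finset.mem_product, Finset.mem_univ, true_and, Finset.mem_range]
    have : cnt s ≤ L.card := Finset.card_filter_le _ _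
    omega
  have hTcard : T.card = 2 * m := by
    simp [T, Finset.card_product]
  have hTne : T.Nonempty := by
    rw [← Finset.card_pos, hTcard]; omega
  have hbig : T.card * (4 * m) ^ r ≤ (S.erase v).card := by
    rw [hTcard, Finset.card_erase_of_mem hvS]
    have h1 : (4 * m) ^ (r + 1) = 4 * m * (4 * m) ^ r := by ring
    have h2 : 1 ≤ (4 * m) ^ r := Nat.one_le_pow _ _ (by omega)
    have h3 : 1 ≤ 2 * m * (4 * m) ^ r := by nlinarith
    have h4 : 4 * m * (4 * m) ^ r = 2 * m * (4 * m) ^ r + 2 * m * (4 * m) ^ r := by ring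
    omega
  obtain ⟨y, _, hy⟩ := Finset.exists_le_card_fiber_of_mul_le_card_of_maps_to hmaps hTne hbig
  set S' : Finset α := (S.erase v).filter (fun s => f s = y) with hS'
  have hS'sub : S' ⊆ S := fun s hs => Finset.mem_of_mem_erase (Finset.mem_filter.mp hs).1
  have hvS' : v ∉ S' := fun h => (Finset.mem_erase.mp (Finset.mem_filter.mp h).1).1 rfl
  have hne' : ∀ s ∈ S', s ≠ v := fun s hs => fun h => hvS' (h ▸ hs)
  refine ⟨v, hvS, S', hS'sub, hvS', hvL, ?_, hy⟩
  have hfy : ∀ s ∈ S', f s = y := fun s hs => (Finset.mem_filter.mp hs).2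
  have hsub : insert v L ∪ S' ⊆ L ∪ S := by
    intro z hz
    simp only [Finset.mem_union, Finset.mem_insert] at hz ⊢
    rcases hz with (h | h) | h
    · right; rw [h]; exact hvS
    · left; exact h
    · right; exact hS'sub h
  have hright : ∀ z ∈ insert v L ∪ S', u v < u z → z ∈ S' := by
    intro z hz hvz
    simp only [Finset.mem_union, Finset.mem_insert] at hz
    rcases hz with (h | h) | h
    · rw [h] at hvz; exact absurd hvz (lt_irrefl _)
    · exact absurd (hst.left z h v hvS) (not_lt.mpr hvz.le)
    · exact h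
  refine ⟨?_, ?_, ?_⟩
  · intro a ha s hs
    rcases Finset.mem_insert.mp ha with h | h
    · rw [h]; exact hlt s (hS'sub hs) (hne' s hs)
    · exact hst.left a h s (hS'sub hs)
  · intro a ha b hb b' hb' hab hab'
    rcases Finset.mem_insert.mp ha with h | h
    · subst h
      have h1 := hfy b (hright b hb hab)
      have h2 := hfy b' (hright b' hb' hab')
      have h3 : f b = f b' := by rw [h1, h2]
      exact congrArg Prod.fst h3
    · exact hst.col a h b (hsub hb) b' (hsub hb') hab hab'
  · intro a ha b hb hab c hc c' hc' hbc hbc'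
    rcases Finset.mem_insert.mp hb with h | h
    · subst h
      -- b = v, a ∈ L
      have haL : a ∈ L := by
        rcases Finset.mem_insert.mp ha with h | h
        · rw [h] at hab; exact absurd hab (lt_irrefl _)
        · exact h
      have hcS := hright c hc hbc
      have hcS' := hright c' hc' hbc'
      have hcnt : cnt c = cnt c' := by
        have h3 : f c = f c' := by rw [hfy c hcS, hfy c' hcS']
        exact congrArg Prod.snd h3
      -- nestedness
      have key : ∀ p q : α, u b < u p → u b < u q →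
          (w p - w b) / (u p - u b) ≤ (w q - w b) / (u q - u b) →
          L.filter (fun a => 0 < D u w a b p) ⊆ L.filter (fun a => 0 < D u w a b q) := by
        intro p q hp hq hpq z hz
        rw [Finset.mem_filter] at hz ⊢
        refine ⟨hz.1, ?_⟩
        have hzb : u z < u b := hst.left z hz.1 b hvS
        rw [D_pos_iff u w hzb hp] at hz
        rw [D_pos_iff u w hzb hq]
        exact lt_of_lt_of_le hz.2 hpq
      have hset : L.filter (fun a => 0 < D u w a b c) = L.filter (fun a => 0 < D u w a b c') := by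
        rcases le_total ((w c - w b) / (u c - u b)) ((w c' - w b) / (u c' - u b)) with h | h
        · exact Finset.eq_of_subset_of_card_le (key c c' hbc hbc' h) (le_of_eq hcnt.symm)
        · exact (Finset.eq_of_subset_of_card_le (key c' c hbc' hbc h) (le_of_eq hcnt)).symm
      have h5 : a ∈ L.filter (fun a => 0 < D u w a b c) ↔
          a ∈ L.filter (fun a => 0 < D u w a b c') := by rw [hset]
      simpa [Finset.mem_filter, haL] using h5
    · -- b ∈ L
      have haL : a ∈ L := by
        rcases Finset.mem_insert.mp ha with h' | h'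
        · rw [h'] at hab
          exact absurd (hst.left b h v hvS) (not_lt.mpr hab.le)
        · exact h'
      exact hst.sgn a haL b h hab c (hsub hc) c' (hsub hc') hbc hbc'

open Classical in
lemma greedy [DecidableEq α] (u w : α → ℝ) (χ : α → α → Bool) (m : ℕ) :
    ∀ (r : ℕ) (L S : Finset α), Set.InjOn u (S : Set α) → State u w χ L S → L.card + r ≤ m →
      (4 * m) ^ r ≤ S.card →
      ∃ T : Finset α, T.card = L.card + r ∧ T ⊆ L ∪ S ∧ State u w χ T ∅ := by
  intro r
  induction r with
  | zero =>
    intro L S _ hst _ _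
    refine ⟨L, by simp, Finset.subset_union_left, ⟨by simp, ?_, ?_⟩⟩
    · intro a ha b hb b' hb' h h'
      exact hst.col a ha b (Finset.mem_union_left _ (by simpa using hb)) b'
        (Finset.mem_union_left _ (by simpa using hb')) h h'
    · intro a ha b hb hab c hc c' hc' h h'
      exact hst.sgn a ha b hb hab c (Finset.mem_union_left _ (by simpa using hc)) c'
        (Finset.mem_union_left _ (by simpa using hc')) h h'
  | succ r ih =>
    intro L S hinj hst hL hS
    obtain ⟨v, hvS, S', hS'S, hvS', hvL, hst', hS'⟩ :=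
      step u w χ m r L S hinj hst (by omega) hS
    have hinj' : Set.InjOn u (S' : Set α) := hinj.mono (by exact_mod_cast hS'S)
    obtain ⟨T, hT, hTsub, hTst⟩ := ih (insert v L) S' hinj' hst'
      (by rw [Finset.card_insert_of_notMem hvL]; omega) hS'
    refine ⟨T, by rw [hT, Finset.card_insert_of_notMem hvL]; omega, ?_, hTst⟩
    intro z hz
    have := hTsub hz
    simp only [Finset.mem_union, Finset.mem_insert] at this ⊢
    rcases this with (h | h) | h
    · right; rw [h]; exact hvS
    · left; exact h
    · right; exact hS'S h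

/-- a chain all of whose triples turn in the direction `σ` -/
def Chain (u w : α → ℝ) (σ : ℝ) (C : Finset α) : Prop :=
  ∀ a ∈ C, ∀ b ∈ C, ∀ c ∈ C, u a < u b → u b < u c → 0 < σ * D u w a b c

/-- the relation: every later point of `T` lies on the `σ`-side of the line through `a`, `b`. -/
def R (u w : α → ℝ) (σ : ℝ) (T : Finset α) (a b : α) : Prop :=
  u a < u b ∧ ∀ c ∈ T, u b < u c → 0 < σ * D u w a b c

lemma R_trans (u w : α → ℝ) (σ : ℝ) (hσ : σ = 1 ∨ σ = -1) (T : Finset α) {a b c : α}
    (hc : c ∈ T) (h1 : R u w σ T a b) (h2 : R u w σ T b c) : R u w σ T a c := by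
  refine ⟨h1.1.trans h2.1, fun d hd hcd => ?_⟩
  have e1 := h1.2 c hc h2.1
  have e2 := h2.2 d hd hcd
  have hab := h1.1
  have hbc := h2.1
  unfold D at *
  rcases hσ with h | h
  · subst h
    simp only [one_mul] at *
    -- (c-a)x(d-a) > 0
    have p1 : 0 < u c - u b := by linarith
    have p2 : 0 < u d - u c := by linarith
    have p3 : 0 < u b - u a := by linarith
    have hx : (u c - u b) * ((u c - u a) * (w d - w a) - (w c - w a) * (u d - u a)) =
        (u d - u c) * ((u b - u a) * (w c - w a) - (w b - w a) * (u c - u a)) +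
        (u c - u a) * ((u c - u b) * (w d - w b) - (w c - w b) * (u d - u b)) := by ring
    have hpos : 0 < (u c - u b) * ((u c - u a) * (w d - w a) - (w c - w a) * (u d - u a)) := by
      rw [hx]
      have : 0 < u c - u a := by linarith
      positivity
    exact (mul_pos_iff_of_pos_left p1).mp hpos
  · subst h
    have p1 : 0 < u c - u b := by linarith
    have p2 : 0 < u d - u c := by linarith
    have p3 : 0 < u c - u a := by linarith
    have hx : (u c - u b) * (-1 * ((u c - u a) * (w d - w a) - (w c - w a) * (u d - u a))) =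
        (u d - u c) * (-1 * ((u b - u a) * (w c - w a) - (w b - w a) * (u c - u a))) +
        (u c - u a) * (-1 * ((u c - u b) * (w d - w b) - (w c - w b) * (u d - u b))) := by ring
    have hpos : 0 < (u c - u b) *
        (-1 * ((u c - u a) * (w d - w a) - (w c - w a) * (u d - u a))) := by
      rw [hx]
      have t1 := mul_pos p2 e1
      have t2 := mul_pos p3 e2
      linarith
    exact (mul_pos_iff_of_pos_left p1).mp hpos

/-- chain in the relation `R` ending at `b` -/
def EndChain (u w : α → ℝ) (σ : ℝ) (T C : Finset α) (b : α) : Prop :=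
  C ⊆ T ∧ b ∈ C ∧ (∀ c ∈ C, c ≠ b → R u w σ T c b) ∧
    ∀ a ∈ C, ∀ c ∈ C, u a < u c → R u w σ T a c

open Classical in
/-- length of a longest chain ending at `b` -/
noncomputable def len (u w : α → ℝ) (σ : ℝ) (T : Finset α) (b : α) : ℕ :=
  (T.powerset.filter (fun C => EndChain u w σ T C b)).sup Finset.card

open Classical in
lemma len_spec (u w : α → ℝ) (σ : ℝ) (T : Finset α) {b : α} (hb : b ∈ T) :
    ∃ C, EndChain u w σ T C b ∧ C.card = len u w σ T b := by
  have hne : (T.powerset.filter (fun C => EndChain u w σ T C b)).Nonempty := by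
    refine ⟨{b}, ?_⟩
    rw [Finset.mem_filter, Finset.mem_powerset]
    refine ⟨by simpa using hb, by simpa using hb, by simp, ?_, ?_⟩
    · intro c hc hcb; exact absurd (Finset.mem_singleton.mp hc) hcb
    · intro a ha c hc h
      rw [Finset.mem_singleton.mp ha, Finset.mem_singleton.mp hc] at h
      exact absurd h (lt_irrefl _)
  obtain ⟨C, hC, hC'⟩ := Finset.exists_mem_eq_sup _ hne Finset.card
  exact ⟨C, (Finset.mem_filter.mp hC).2, hC'.symm⟩

open Classical in
lemma le_len (u w : α → ℝ) (σ : ℝ) (T C : Finset α) {b : α} (h : EndChain u w σ T C b) :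
    C.card ≤ len u w σ T b := by
  refine Finset.le_sup (f := Finset.card) ?_
  rw [Finset.mem_filter, Finset.mem_powerset]
  exact ⟨h.1, h⟩

open Classical in
lemma len_lt (u w : α → ℝ) (σ : ℝ) (hσ : σ = 1 ∨ σ = -1) (T : Finset α) {a b : α}
    (ha : a ∈ T) (hb : b ∈ T) (h : R u w σ T a b) : len u w σ T a < len u w σ T b := by
  obtain ⟨C, hC, hcard⟩ := len_spec u w σ T ha
  have hca : ∀ c ∈ C, u c ≤ u a := by
    intro c hc
    by_cases hne : c = a
    · rw [hne]
    · exact (hC.2.2.1 c hc hne).1.le
  have hbC : b ∉ C := fun hbC => by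
    have := hca b hbC
    have := h.1
    linarith
  have hCb : ∀ c ∈ C, R u w σ T c b := by
    intro c hc
    by_cases hne : c = a
    · rw [hne]; exact h
    · exact R_trans u w σ hσ T hb (hC.2.2.1 c hc hne) h
  have hnew : EndChain u w σ T (insert b C) b := by
    refine ⟨?_, Finset.mem_insert_self _ _, ?_, ?_⟩
    · intro z hz
      rcases Finset.mem_insert.mp hz with h' | h'
      · rw [h']; exact hb
      · exact hC.1 h'
    · intro c hc hcb
      rcases Finset.mem_insert.mp hc with h' | h'
      · exact absurd h' hcb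
      · exact hCb c h'
    · intro p hp q hq hpq
      rcases Finset.mem_insert.mp hp with hp' | hp' <;> rcases Finset.mem_insert.mp hq with hq' | hq'
      · rw [hp', hq'] at hpq; exact absurd hpq (lt_irrefl _)
      · rw [hp'] at hpq
        have h1 := hca q hq'
        have h2 := h.1
        linarith
      · rw [hq']; exact hCb p hp'
      · exact hC.2.2.2 p hp' q hq' hpq
  have := le_len u w σ T (insert b C) hnew
  rw [Finset.card_insert_of_notMem hbC, hcard] at this
  omega

open Classical in
lemma es [DecidableEq α] (u w : α → ℝ) (χ : α → α → Bool) (T : Finset α) (q : ℕ)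
    (hinj : Set.InjOn u (T : Set α))
    (hne : ∀ a ∈ T, ∀ b ∈ T, ∀ c ∈ T, u a < u b → u b < u c → D u w a b c ≠ 0)
    (hst : State u w χ T ∅) (hcard : q * q + 1 ≤ T.card) :
    ∃ C ⊆ T, q + 1 ≤ C.card ∧ ∃ σ : ℝ, (σ = 1 ∨ σ = -1) ∧ Chain u w σ C := by
  by_contra hcon
  push Not at hcon
  -- every pair is comparable
  have hcomp : ∀ a ∈ T, ∀ b ∈ T, u a < u b → R u w 1 T a b ∨ R u w (-1) T a b := by
    intro a ha b hb hab
    by_cases hex : ∃ c ∈ T, u b < u c ∧ 0 < D u w a b c
    · obtain ⟨c, hc, hbc, hpos⟩ := hex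
      left
      refine ⟨hab, fun d hd hbd => ?_⟩
      have := (hst.sgn a ha b hb hab c (by simpa using hc) d (by simpa using hd) hbc hbd).mp hpos
      simpa using this
    · push Not at hex
      right
      refine ⟨hab, fun d hd hbd => ?_⟩
      have h1 := hex d hd hbd
      have h2 := hne a ha b hb d hd hab hbd
      have h3 : D u w a b d < 0 := lt_of_le_of_ne h1 h2
      linarith
  have hlen : ∀ σ : ℝ, (σ = 1 ∨ σ = -1) → ∀ b ∈ T, len u w σ T b ∈ Finset.Icc 1 q := by
    intro σ hσ b hb
    obtain ⟨C, hC, hcardC⟩ := len_spec u w σ T hb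
    rw [Finset.mem_Icc]
    constructor
    · rw [← hcardC]
      exact Finset.card_pos.mpr ⟨b, hC.2.1⟩
    · by_contra hlt
      push Not at hlt
      refine hcon C hC.1 (by omega) σ hσ ?_
      intro a ha b' hb' c hc hab hbc
      exact (hC.2.2.2 a ha b' hb' hab).2 c (hC.1 hc) hbc
  let F : α → ℕ × ℕ := fun b => (len u w 1 T b, len u w (-1) T b)
  have hmaps : ∀ b ∈ T, F b ∈ Finset.Icc 1 q ×ˢ Finset.Icc 1 q := by
    intro b hb
    exact Finset.mem_product.mpr ⟨hlen 1 (Or.inl rfl) b hb, hlen (-1) (Or.inr rfl) b hb⟩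
  have hcard' : (Finset.Icc 1 q ×ˢ Finset.Icc 1 q).card < T.card := by
    rw [Finset.card_product]; simp; omega
  obtain ⟨a, ha, b, hb, hab, hF⟩ :=
    Finset.exists_ne_map_eq_of_card_lt_of_maps_to hcard' hmaps
  have hF1 : len u w 1 T a = len u w 1 T b := congrArg Prod.fst hF
  have hF2 : len u w (-1) T a = len u w (-1) T b := congrArg Prod.snd hF
  have huab : u a ≠ u b := fun h => hab (hinj (by exact_mod_cast ha) (by exact_mod_cast hb) h)
  rcases lt_or_gt_of_ne huab with h | h
  · rcases hcomp a ha b hb h with h' | h'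
    · have := len_lt u w 1 (Or.inl rfl) T ha hb h'; omega
    · have := len_lt u w (-1) (Or.inr rfl) T ha hb h'; omega
  · rcases hcomp b hb a ha h with h' | h'
    · have := len_lt u w 1 (Or.inl rfl) T hb ha h'; omega
    · have := len_lt u w (-1) (Or.inr rfl) T hb ha h'; omega

open Classical in
/-- Main combinatorial statement. -/
theorem core (u w : α → ℝ) (χ : α → α → Bool) (P : Finset α) (q : ℕ)
    (hinj : Set.InjOn u (P : Set α))
    (hne : ∀ a ∈ P, ∀ b ∈ P, ∀ c ∈ P, u a < u b → u b < u c → D u w a b c ≠ 0)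
    (hP : (4 * (2 * (q * q) + 1)) ^ (2 * (q * q) + 1) ≤ P.card) :
    ∃ C ⊆ P, q + 1 ≤ C.card ∧ (∃ σ : ℝ, (σ = 1 ∨ σ = -1) ∧ Chain u w σ C) ∧
      ∃ col : Bool, ∀ a ∈ C, ∀ b ∈ C, u a < u b → χ a b = col := by
  set m := 2 * (q * q) + 1 with hm
  have hst0 : State u w χ (∅ : Finset α) P := ⟨by simp, by simp, by simp⟩
  obtain ⟨T, hT, hTsub, hTst⟩ := greedy u w χ m m ∅ P hinj hst0 (by simp) hP
  simp only [Finset.card_empty, zero_add] at hT
  have hTP : T ⊆ P := by simpa using hTsub
  -- split by colour
  let A : Bool → Finset α := fun κ => T.filter (fun a => ∀ b ∈ T, u a < u b → χ a b = κ)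
  have hcover : T ⊆ A true ∪ A false := by
    intro a ha
    by_cases hex : ∃ b ∈ T, u a < u b ∧ χ a b = true
    · obtain ⟨b, hb, hab, hχ⟩ := hex
      refine Finset.mem_union_left _ (Finset.mem_filter.mpr ⟨ha, fun c hc hac => ?_⟩)
      rw [← hχ]
      exact hTst.col a ha c (by simpa using hc) b (by simpa using hb) hac hab
    · push Not at hex
      refine Finset.mem_union_right _ (Finset.mem_filter.mpr ⟨ha, fun c hc hac => ?_⟩)
      have := hex c hc hac
      simpa using this
  have hcardA : T.card ≤ (A true).card + (A false).card :=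
    (Finset.card_le_card hcover).trans (Finset.card_union_le _ _)
  have hex : ∃ κ, q * q + 1 ≤ (A κ).card := by
    by_contra hcon
    push Not at hcon
    have h1 := hcon true
    have h2 := hcon false
    omega
  obtain ⟨κ, hκ⟩ := hex
  have hAT : A κ ⊆ T := Finset.filter_subset _ _
  have hstA : State u w χ (A κ) ∅ := by
    refine ⟨by simp, ?_, ?_⟩
    · intro a ha b hb b' hb' h h'
      exact hTst.col a (hAT ha) b (by simpa using hAT (by simpa using hb)) b'
        (by simpa using hAT (by simpa using hb')) h h'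
    · intro a ha b hb hab c hc c' hc' h h'
      exact hTst.sgn a (hAT ha) b (hAT hb) hab c (by simpa using hAT (by simpa using hc)) c'
        (by simpa using hAT (by simpa using hc')) h h'
  have hAP : A κ ⊆ P := hAT.trans hTP
  obtain ⟨C, hCA, hCcard, σ, hσ, hchain⟩ := es u w χ (A κ) q
    (hinj.mono (by exact_mod_cast hAP))
    (fun a ha b hb c hc => hne a (hAP ha) b (hAP hb) c (hAP hc)) hstA hκ
  refine ⟨C, hCA.trans hAP, hCcard, ⟨σ, hσ, hchain⟩, κ, fun a ha b hb hab => ?_⟩
  exact (Finset.mem_filter.mp (hCA ha)).2 b (hAT (hCA hb)) hab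

end Pool.Agent.Y379.MonoConvexCore
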